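import Pool.Agent.helper65.GD.SpecB

/-!
# Row gdm:CNU (MP_ea335c_an): counting from above
-/

set_option autoImplicit false

namespace Pool.Agent.GD

open Finset Metric Filter Topology

theorem CNU : CNU_stmt := by
  intro Θ φ p s hΘ h2 hs
  have hpi := Real.pi_pos
  have hm : ∀ θ ∈ s, ∃ m : ℤ, (m : ℝ) * Real.pi = Θ θ - φ := fun θ hθ =>
    Real.sin_eq_zero_iff.1 (hs θ hθ).2.2
  have key : s.card ≤ (Finset.Ico ⌈(Θ 0 - φ) / Real.pi⌉ (⌈(Θ 0 - φ) / Real.pi⌉ + 2 * p)).card := by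
    refine Finset.card_le_card_of_injOn (fun θ => ⌊(Θ θ - φ) / Real.pi⌋) ?_ ?_
    · intro θ hθ
      obtain ⟨m, hm'⟩ := hm θ hθ
      have e1 : (Θ θ - φ) / Real.pi = m := by
        rw [← hm', mul_div_assoc, div_self hpi.ne', mul_one]
      show ⌊(Θ θ - φ) / Real.pi⌋ ∈ _
      rw [Finset.mem_coe, Finset.mem_Ico, e1, Int.floor_intCast]
      have e2 : Θ 0 ≤ Θ θ := hΘ.monotone (hs θ hθ).1
      have e3 : Θ θ < Θ 0 + 2 * Real.pi * p := by
        rw [← h2]
        exact hΘ (hs θ hθ).2.1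
      constructor
      · rw [Int.ceil_le, div_le_iff₀ hpi]
        linarith
      · have e4 : (m : ℝ) < (Θ 0 - φ) / Real.pi + 2 * p := by
          rw [← e1, div_add' _ _ _ hpi.ne', div_lt_div_iff_of_pos_right hpi]
          nlinarith
        have e5 : (m : ℝ) < (⌈(Θ 0 - φ) / Real.pi⌉ : ℝ) + 2 * p :=
          e4.trans_le (add_le_add_left (Int.le_ceil _) _)
        exact_mod_cast e5
    · intro θ hθ θ' hθ' heq
      obtain ⟨m, hm1⟩ := hm θ hθ
      obtain ⟨m', hm2⟩ := hm θ' hθ'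
      have e1 : (Θ θ - φ) / Real.pi = m := by
        rw [← hm1, mul_div_assoc, div_self hpi.ne', mul_one]
      have e2 : (Θ θ' - φ) / Real.pi = m' := by
        rw [← hm2, mul_div_assoc, div_self hpi.ne', mul_one]
      have e3 : ⌊(Θ θ - φ) / Real.pi⌋ = ⌊(Θ θ' - φ) / Real.pi⌋ := heq
      rw [e1, e2, Int.floor_intCast, Int.floor_intCast] at e3
      subst e3
      apply hΘ.injective
      linarith
  rw [Int.card_Ico] at key
  omega

end Pool.Agent.GD
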